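import Mathlib

/-!
# Two-colour Ramsey numbers for degree-monotone paths

`M2 m` is the least `M` such that for every `n ≥ M` every 2-colouring of the edges of `K_n` has a
monochromatic degree-monotone path of order `m`.  We show `M2 m = (m - 1) ^ 2 + 1` for all `m ≥ 7`.

Lower bound: colourings of `K_n`, `n = (m - 1) ^ 2`, without such a path, by induction on `m`.
From a colouring for `m` one obtains a colouring for `m + 1` by adding a red clique `A` with `m - 1`
vertices, joined in blue to the old vertices, and a blue clique `C` with `m` vertices joined in red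
to all other vertices.  The case `m = 7` is a colouring of `K_36`.
-/

set_option autoImplicit false

namespace Pool.Agent.Results.MP_a6acde_co.Exact

/-- The graph formed by the edges of colour `j`. -/
def colourGraph {V κ : Type} (c : Sym2 V → κ) (j : κ) : SimpleGraph V where
  Adj u v := u ≠ v ∧ c s(u, v) = j
  symm := ⟨fun u v h => ⟨h.1.symm, by rw [Sym2.eq_swap]; exact h.2⟩⟩
  loopless := ⟨fun u h => h.1 rfl⟩

/-- The degree of a vertex. -/
noncomputable def deg {V : Type} (G : SimpleGraph V) (v : V) : ℕ := (G.neighborSet v).ncard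

/-- `G` contains a path `p 0, p 1, …, p (m - 1)` (distinct vertices, consecutive ones adjacent)
along which the degrees (in `G`) do not decrease. -/
def HasDegreeMonotonePath {V : Type} (G : SimpleGraph V) (m : ℕ) : Prop :=
  ∃ p : Fin m → V, Function.Injective p ∧
    ∀ i j : Fin m, i.1 + 1 = j.1 → G.Adj (p i) (p j) ∧ deg G (p i) ≤ deg G (p j)

/-- The integers `M` such that for all `n ≥ M` every colouring of the edges of `K_n` with two
colours contains a degree-monotone path of order `m` in some colour. -/
def Good (m : ℕ) : Set ℕ :=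
  {M | ∀ n, M ≤ n → ∀ c : Sym2 (Fin n) → Fin 2, ∃ j, HasDegreeMonotonePath (colourGraph c j) m}

/-- `M_2(m)`. -/
noncomputable def M2 (m : ℕ) : ℕ := sInf (Good m)

open Classical in
/-- the degree as a sum -/
lemma deg_eq_sum {V : Type} [Fintype V] (G : SimpleGraph V) (v : V) :
    deg G v = ∑ u, if G.Adj v u then 1 else 0 := by
  unfold deg
  rw [Finset.sum_ite, Finset.sum_const_zero, add_zero, Finset.sum_const, smul_eq_mul, mul_one,
    ← Set.ncard_coe_finset]
  congr 1
  ext u
  simp

/-! ### certificates -/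

/-- A certificate that all paths in the relation `R` along which `d` does not decrease have at most
`M` vertices. -/
structure PathCert {V : Type} (R : V → V → Prop) (d s L : V → ℕ) (M : ℕ) : Prop where
  le : ∀ v, L v ≤ M
  ge : ∀ v, s v ≤ L v
  pos : ∀ v, 1 ≤ s v
  lt : ∀ w v, R w v → d w < d v → L w + s v ≤ L v
  eqL : ∀ w v, R w v → d w = d v → L w = L v
  cnt : ∀ w v, R w v → d w = d v → {u | d u = d w}.ncard ≤ s w

lemma PathCert.bound {V : Type} [Finite V] {R : V → V → Prop} {d s L : V → ℕ} {M : ℕ}
    (h : PathCert R d s L M) {m : ℕ} (p : Fin m → V) (hp : Function.Injective p)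
    (hR : ∀ i j : Fin m, i.1 + 1 = j.1 → R (p i) (p j) ∧ d (p i) ≤ d (p j)) :
    ∀ (j : ℕ) (hj : j < m), j + 1 ≤ L (p ⟨j, hj⟩) := by
  intro j
  induction j using Nat.strong_induction_on with
  | _ j ih =>
  intro hj
  classical
  -- monotonicity
  have mono : ∀ b (hb : b < m) a (ha : a ≤ b), d (p ⟨a, by omega⟩) ≤ d (p ⟨b, hb⟩) := by
    intro b
    induction b with
    | zero =>
      intro hb a ha
      have h0 : a = 0 := by omega
      subst h0
      exact le_rfl
    | succ b ihb =>
      intro hb a ha
      rcases ha.lt_or_eq with hlt | rfl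
      · exact (ihb (by omega) a (by omega)).trans (hR ⟨b, by omega⟩ ⟨b + 1, hb⟩ rfl).2
      · exact le_rfl
  -- first index of the segment
  have hex : ∃ i, i ≤ j ∧ ∀ hi : i < m, d (p ⟨i, hi⟩) = d (p ⟨j, hj⟩) := ⟨j, le_rfl, fun _ => rfl⟩
  obtain ⟨hi0, hd0⟩ := Nat.find_spec hex
  have hmin := fun i => @Nat.find_min _ _ hex i
  set i0 := Nat.find hex with hi0def
  have hi0m : i0 < m := by omega
  have hd0' := hd0 hi0m
  have hseg : ∀ i (h1 : i0 ≤ i) (h2 : i ≤ j), d (p ⟨i, by omega⟩) = d (p ⟨j, hj⟩) := by
    intro i h1 h2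
    apply le_antisymm (mono j hj i h2)
    rw [← hd0']
    exact mono i (by omega) i0 h1
  have hL : ∀ i (h1 : i0 ≤ i) (h2 : i ≤ j), L (p ⟨i0, hi0m⟩) = L (p ⟨i, by omega⟩) := by
    intro i h1
    induction i, h1 using Nat.le_induction with
    | base => intro _; rfl
    | succ i h1 ihi =>
      intro h2
      rw [ihi (by omega)]
      exact h.eqL _ _ (hR ⟨i, by omega⟩ ⟨i + 1, by omega⟩ rfl).1
        ((hseg i h1 (by omega)).trans (hseg (i + 1) (by omega) h2).symm)
  have hs : j - i0 + 1 ≤ s (p ⟨i0, hi0m⟩) := by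
    rcases hi0.lt_or_eq with hlt | heq
    · have h1 := h.cnt _ _ (hR ⟨i0, hi0m⟩ ⟨i0 + 1, by omega⟩ rfl).1
        ((hseg i0 le_rfl hi0).trans (hseg (i0 + 1) (by omega) (by omega)).symm)
      refine le_trans ?_ h1
      -- the segment injects into the class
      have h2 : ((Finset.Icc i0 j).attach.image
          (fun i => p ⟨i.1, by have := Finset.mem_Icc.1 i.2; omega⟩)).card = j - i0 + 1 := by
        rw [Finset.card_image_of_injective, Finset.card_attach, Nat.card_Icc]
        · omega
        · intro a b hab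
          have := hp hab
          exact Subtype.ext (by simpa using this)
      rw [← h2, ← Set.ncard_coe_finset]
      apply Set.ncard_le_ncard _ (Set.toFinite _)
      intro x hx
      rw [Finset.mem_coe, Finset.mem_image] at hx
      obtain ⟨i, -, rfl⟩ := hx
      have hi := Finset.mem_Icc.1 i.2
      show d _ = d _
      rw [hseg i.1 hi.1 hi.2, hd0']
    · rw [← heq, Nat.sub_self]
      exact h.pos _
  rw [← hL j hi0 le_rfl]
  rcases Nat.eq_zero_or_pos i0 with h0 | h0
  · have := h.ge (p ⟨i0, hi0m⟩)
    omega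
  · have h1 : i0 - 1 < m := by omega
    have h2 := ih (i0 - 1) (by omega) h1
    have hadj := hR ⟨i0 - 1, h1⟩ ⟨i0, hi0m⟩ (by simp; omega)
    have h3 : d (p ⟨i0 - 1, h1⟩) < d (p ⟨i0, hi0m⟩) := by
      refine lt_of_le_of_ne hadj.2 ?_
      intro he
      exact hmin (i0 - 1) (by omega) ⟨by omega, fun _ => he.trans hd0'⟩
    have h4 := h.lt _ _ hadj.1 h3
    omega

lemma PathCert.no_path {V : Type} [Finite V] {R : V → V → Prop} {d s L : V → ℕ} {M : ℕ}
    (h : PathCert R d s L M) (p : Fin (M + 1) → V) (hp : Function.Injective p)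
    (hR : ∀ i j : Fin (M + 1), i.1 + 1 = j.1 → R (p i) (p j) ∧ d (p i) ≤ d (p j)) : False := by
  have h1 := h.bound p hp hR M (by omega)
  have h2 := h.le (p ⟨M, by omega⟩)
  omega

/-- A 2-colouring of the complete graph on `V` (red graph `G`) without monochromatic
degree-monotone path on `M + 1` vertices, together with certificates. -/
structure Cert (V : Type) [Fintype V] (G : SimpleGraph V) (d : V → ℕ) (M : ℕ) : Prop where
  card : Fintype.card V = M ^ 2
  hd : ∀ v, deg G v = d v
  dmin : ∀ v, M ≤ d v
  dmax : ∀ v, d v + 2 ≤ Fintype.card V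
  red : ∃ s L, PathCert G.Adj d s L M
  blue : ∃ s L, PathCert Gᶜ.Adj d s L M

/-! ### the induction step -/

lemma sum_one {α : Type} [Fintype α] (P : α → Prop) [DecidablePred P] (h : ∀ a, P a) :
    (∑ a, if P a then 1 else 0) = Fintype.card α := by simp [h]

lemma sum_zero {α : Type} [Fintype α] (P : α → Prop) [DecidablePred P] (h : ∀ a, ¬ P a) :
    (∑ a, if P a then 1 else 0) = 0 := by simp [h]

section Step

variable {V : Type} (G : SimpleGraph V) (M : ℕ)

/-- The new colouring. -/
def newG : SimpleGraph (V ⊕ (Fin M ⊕ Fin (M + 1))) where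
  Adj x y := match x, y with
    | Sum.inl u, Sum.inl v => G.Adj u v
    | Sum.inl _, Sum.inr (Sum.inl _) => False
    | Sum.inr (Sum.inl _), Sum.inl _ => False
    | Sum.inl _, Sum.inr (Sum.inr _) => True
    | Sum.inr (Sum.inr _), Sum.inl _ => True
    | Sum.inr (Sum.inl i), Sum.inr (Sum.inl j) => i ≠ j
    | Sum.inr (Sum.inl _), Sum.inr (Sum.inr _) => True
    | Sum.inr (Sum.inr _), Sum.inr (Sum.inl _) => True
    | Sum.inr (Sum.inr _), Sum.inr (Sum.inr _) => False
  symm := ⟨by
    rintro (u | i | i) (v | j | j) h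
    · exact h.symm
    · exact h
    · exact h
    · exact h
    · exact h.symm
    · exact h
    · exact h
    · exact h
    · exact h⟩
  loopless := ⟨by
    rintro (u | i | i) h
    · exact h.ne rfl
    · exact h rfl
    · exact h⟩

/-- The new degrees. -/
def newd (d : V → ℕ) (N : ℕ) : V ⊕ (Fin M ⊕ Fin (M + 1)) → ℕ
  | Sum.inl v => d v + (M + 1)
  | Sum.inr (Sum.inl _) => 2 * M
  | Sum.inr (Sum.inr _) => N + M

/-- A function on the new vertices. -/
def fn (f : V → ℕ) (a c : ℕ) : V ⊕ (Fin M ⊕ Fin (M + 1)) → ℕ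
  | Sum.inl v => f v
  | Sum.inr (Sum.inl _) => a
  | Sum.inr (Sum.inr _) => c

variable {G M}

lemma new_deg [Fintype V] {d : V → ℕ} (hd : ∀ v, deg G v = d v) (x : V ⊕ (Fin M ⊕ Fin (M + 1))) :
    deg (newG G M) x = newd M d (Fintype.card V) x := by
  classical
  rw [deg_eq_sum, Fintype.sum_sum_type, Fintype.sum_sum_type]
  rcases x with v | i | i
  · have h1 : (∑ u : V, if (newG G M).Adj (Sum.inl v) (Sum.inl u) then 1 else 0) = d v := by
      rw [← hd v, deg_eq_sum]
      rfl
    have h2 : (∑ u : Fin M, if (newG G M).Adj (Sum.inl v) (Sum.inr (Sum.inl u)) then 1 else 0)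
        = 0 := by
      exact sum_zero _ (fun _ h => h)
    have h3 : (∑ u : Fin (M + 1), if (newG G M).Adj (Sum.inl v) (Sum.inr (Sum.inr u))
        then 1 else 0) = M + 1 := by
      refine Eq.trans (sum_one _ ?_) ?_
      · exact fun _ => trivial
      · simp
    rw [h1, h2, h3]
    simp [newd]
  · have h1 : (∑ u : V, if (newG G M).Adj (Sum.inr (Sum.inl i)) (Sum.inl u) then 1 else 0)
        = 0 := by
      exact sum_zero _ (fun _ h => h)
    have h2 : (∑ u : Fin M, if (newG G M).Adj (Sum.inr (Sum.inl i)) (Sum.inr (Sum.inl u))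
        then 1 else 0) = M - 1 := by
      have : ∀ u : Fin M, (if (newG G M).Adj (Sum.inr (Sum.inl i)) (Sum.inr (Sum.inl u))
        then 1 else 0) = (if i = u then 0 else 1) := by
        intro u
        by_cases h : i = u
        · rw [if_neg (fun h' => h' h), if_pos h]
        · rw [if_neg h]
          exact if_pos h
      rw [Finset.sum_congr rfl (fun u _ => this u)]
      have h4 : (∑ u : Fin M, ((if i = u then 0 else 1) + (if i = u then 1 else 0))) = M := by
        rw [Finset.sum_congr rfl (fun u _ => show (if i = u then 0 else 1)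
          + (if i = u then 1 else 0) = 1 by split_ifs <;> rfl)]
        simp
      rw [Finset.sum_add_distrib, Finset.sum_ite_eq] at h4
      simp at h4
      omega
    have h3 : (∑ u : Fin (M + 1), if (newG G M).Adj (Sum.inr (Sum.inl i)) (Sum.inr (Sum.inr u))
        then 1 else 0) = M + 1 := by
      refine Eq.trans (sum_one _ ?_) ?_
      · exact fun _ => trivial
      · simp
    rw [h1, h2, h3]
    have := i.2
    simp only [newd]
    omega
  · have h1 : (∑ u : V, if (newG G M).Adj (Sum.inr (Sum.inr i)) (Sum.inl u) then 1 else 0)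
        = Fintype.card V := by
      refine Eq.trans (sum_one _ ?_) ?_
      · exact fun _ => trivial
      · simp
    have h2 : (∑ u : Fin M, if (newG G M).Adj (Sum.inr (Sum.inr i)) (Sum.inr (Sum.inl u))
        then 1 else 0) = M := by
      refine Eq.trans (sum_one _ ?_) ?_
      · exact fun _ => trivial
      · simp
    have h3 : (∑ u : Fin (M + 1), if (newG G M).Adj (Sum.inr (Sum.inr i)) (Sum.inr (Sum.inr u))
        then 1 else 0) = 0 := by
      exact sum_zero _ (fun _ h => h)
    rw [h1, h2, h3]
    simp [newd]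

lemma class_old {d : V → ℕ} {N : ℕ} (hmin : ∀ v, M ≤ d v) (hmax : ∀ v, d v + 2 ≤ N) (v : V) :
    {x | newd M d N x = newd M d N (Sum.inl v)}.ncard = {u | d u = d v}.ncard := by
  rw [← Set.ncard_image_of_injective {u | d u = d v}
    (Sum.inl_injective (α := V) (β := Fin M ⊕ Fin (M + 1)))]
  congr 1
  ext x
  have h1 := hmin v
  have h2 := hmax v
  rcases x with u | i | i
  · simp [newd]
  · simp only [newd, Set.mem_ofPred_eq, Set.mem_image, reduceCtorEq, and_false, exists_false,
      iff_false]
    omega
  · simp only [newd, Set.mem_ofPred_eq, Set.mem_image, reduceCtorEq, and_false, exists_false,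
      iff_false]
    omega

lemma class_A {d : V → ℕ} {N : ℕ} (hmin : ∀ v, M ≤ d v) (hN : M < N) (i : Fin M) :
    {x | newd M d N x = newd M d N (Sum.inr (Sum.inl i))}.ncard ≤ M := by
  have : {x | newd M d N x = newd M d N (Sum.inr (Sum.inl i))} ⊆
      Set.range (fun i : Fin M => (Sum.inr (Sum.inl i) : V ⊕ (Fin M ⊕ Fin (M + 1)))) := by
    intro x hx
    rcases x with u | j | j
    · have := hmin u
      simp only [newd, Set.mem_ofPred_eq] at hx
      omega
    · exact ⟨j, rfl⟩
    · simp only [newd, Set.mem_ofPred_eq] at hx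
      omega
  refine (Set.ncard_le_ncard this (Set.finite_range _)).trans ?_
  rw [← Set.image_univ]
  refine (Set.ncard_image_le (Set.toFinite _)).trans ?_
  simp [Set.ncard_univ]

lemma class_C {d : V → ℕ} {N : ℕ} (hmax : ∀ v, d v + 2 ≤ N) (hN : M < N) (i : Fin (M + 1)) :
    {x | newd M d N x = newd M d N (Sum.inr (Sum.inr i))}.ncard ≤ M + 1 := by
  have : {x | newd M d N x = newd M d N (Sum.inr (Sum.inr i))} ⊆
      Set.range (fun i : Fin (M + 1) => (Sum.inr (Sum.inr i) : V ⊕ (Fin M ⊕ Fin (M + 1)))) := by
    intro x hx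
    rcases x with u | j | j
    · have := hmax u
      simp only [newd, Set.mem_ofPred_eq] at hx
      omega
    · simp only [newd, Set.mem_ofPred_eq] at hx
      omega
    · exact ⟨j, rfl⟩
  refine (Set.ncard_le_ncard this (Set.finite_range _)).trans ?_
  rw [← Set.image_univ]
  refine (Set.ncard_image_le (Set.toFinite _)).trans ?_
  simp [Set.ncard_univ]

theorem step [Fintype V] {d : V → ℕ} (hM : 2 ≤ M) (h : Cert V G d M) :
    Cert (V ⊕ (Fin M ⊕ Fin (M + 1))) (newG G M) (newd M d (Fintype.card V)) (M + 1) := by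
  have hcard := h.card
  have hmin := h.dmin
  have hmax := h.dmax
  have hN : M < Fintype.card V := by nlinarith
  obtain ⟨sR, LR, hR⟩ := h.red
  obtain ⟨sB, LB, hB⟩ := h.blue
  refine ⟨?_, fun x => new_deg h.hd x, ?_, ?_, ?_, ?_⟩
  · rw [Fintype.card_sum, Fintype.card_sum, Fintype.card_fin, Fintype.card_fin]
    nlinarith
  · rintro (v | i | i)
    · simp only [newd]; omega
    · simp only [newd]; omega
    · simp only [newd]; omega
  · rw [Fintype.card_sum, Fintype.card_sum, Fintype.card_fin, Fintype.card_fin]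
    rintro (v | i | i)
    · have := hmax v
      simp only [newd]; omega
    · simp only [newd]; omega
    · simp only [newd]; omega
  · refine ⟨fn M sR M 1, fn M LR M (M + 1), ?_, ?_, ?_, ?_, ?_, ?_⟩
    · rintro (v | i | i)
      · exact (hR.le v).trans (Nat.le_succ _)
      · exact Nat.le_succ _
      · exact le_rfl
    · rintro (v | i | i)
      · exact hR.ge v
      · exact le_rfl
      · exact Nat.succ_le_succ (Nat.zero_le _)
    · rintro (v | i | i)
      · exact hR.pos v
      · show 1 ≤ M; omega
      · exact le_rfl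
    · rintro (w | i | i) (v | j | j) hadj hlt
      · have h1 : d w < d v := by simp only [newd] at hlt; omega
        exact hR.lt w v hadj h1
      · exact absurd hadj (fun h => h)
      · exact Nat.succ_le_succ (hR.le w)
      · exact absurd hadj (fun h => h)
      · simp only [newd] at hlt; omega
      · exact le_rfl
      · have := hmax v
        simp only [newd] at hlt; omega
      · simp only [newd] at hlt; omega
      · exact absurd hadj (fun h => h)
    · rintro (w | i | i) (v | j | j) hadj heq
      · have h1 : d w = d v := by simp only [newd] at heq; omega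
        exact hR.eqL w v hadj h1
      · exact absurd hadj (fun h => h)
      · have := hmax w
        simp only [newd] at heq; omega
      · exact absurd hadj (fun h => h)
      · rfl
      · simp only [newd] at heq; omega
      · have := hmax v
        simp only [newd] at heq; omega
      · simp only [newd] at heq; omega
      · rfl
    · rintro (w | i | i) (v | j | j) hadj heq
      · have h1 : d w = d v := by simp only [newd] at heq; omega
        rw [class_old hmin hmax]
        exact hR.cnt w v hadj h1
      · exact absurd hadj (fun h => h)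
      · have := hmax w
        simp only [newd] at heq; omega
      · exact absurd hadj (fun h => h)
      · exact class_A hmin hN i
      · simp only [newd] at heq; omega
      · have := hmax v
        simp only [newd] at heq; omega
      · simp only [newd] at heq; omega
      · exact absurd hadj (fun h => h)
  · refine ⟨fn M sB 1 (M + 1), fn M (fun v => LB v + 1) 1 (M + 1), ?_, ?_, ?_, ?_, ?_, ?_⟩
    · rintro (v | i | i)
      · exact Nat.succ_le_succ (hB.le v)
      · exact Nat.succ_le_succ (Nat.zero_le _)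
      · exact le_rfl
    · rintro (v | i | i)
      · exact (hB.ge v).trans (Nat.le_succ _)
      · exact le_rfl
      · exact le_rfl
    · rintro (v | i | i)
      · exact hB.pos v
      · exact le_rfl
      · exact Nat.succ_le_succ (Nat.zero_le _)
    · rintro (w | i | i) (v | j | j) hadj hlt
      · have h1 : d w < d v := by simp only [newd] at hlt; omega
        have h2 : Gᶜ.Adj w v := by
          rw [SimpleGraph.compl_adj] at hadj ⊢
          exact ⟨fun h => hadj.1 (by rw [h]), hadj.2⟩
        have := hB.lt w v h2 h1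
        simp only [fn]; omega
      · have := hmin w
        simp only [newd] at hlt; omega
      · exact (((SimpleGraph.compl_adj _ _ _).1 hadj).2 trivial).elim
      · have := hB.ge v
        simp only [fn]; omega
      · simp only [newd] at hlt; omega
      · exact (((SimpleGraph.compl_adj _ _ _).1 hadj).2 trivial).elim
      · exact (((SimpleGraph.compl_adj _ _ _).1 hadj).2 trivial).elim
      · exact (((SimpleGraph.compl_adj _ _ _).1 hadj).2 trivial).elim
      · simp only [newd] at hlt; omega
    · rintro (w | i | i) (v | j | j) hadj heq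
      · have h1 : d w = d v := by simp only [newd] at heq; omega
        have h2 : Gᶜ.Adj w v := by
          rw [SimpleGraph.compl_adj] at hadj ⊢
          exact ⟨fun h => hadj.1 (by rw [h]), hadj.2⟩
        have := hB.eqL w v h2 h1
        simp only [fn]; omega
      · have := hmin w
        simp only [newd] at heq; omega
      · exact (((SimpleGraph.compl_adj _ _ _).1 hadj).2 trivial).elim
      · have := hmin v
        simp only [newd] at heq; omega
      · rfl
      · exact (((SimpleGraph.compl_adj _ _ _).1 hadj).2 trivial).elim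
      · exact (((SimpleGraph.compl_adj _ _ _).1 hadj).2 trivial).elim
      · exact (((SimpleGraph.compl_adj _ _ _).1 hadj).2 trivial).elim
      · rfl
    · rintro (w | i | i) (v | j | j) hadj heq
      · have h1 : d w = d v := by simp only [newd] at heq; omega
        have h2 : Gᶜ.Adj w v := by
          rw [SimpleGraph.compl_adj] at hadj ⊢
          exact ⟨fun h => hadj.1 (by rw [h]), hadj.2⟩
        rw [class_old hmin hmax]
        exact hB.cnt w v h2 h1
      · have := hmin w
        simp only [newd] at heq; omega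
      · exact (((SimpleGraph.compl_adj _ _ _).1 hadj).2 trivial).elim
      · have := hmin v
        simp only [newd] at heq; omega
      · rw [SimpleGraph.compl_adj] at hadj
        exact (hadj.2 (fun h : i = j => hadj.1 (by rw [h]))).elim
      · exact (((SimpleGraph.compl_adj _ _ _).1 hadj).2 trivial).elim
      · exact (((SimpleGraph.compl_adj _ _ _).1 hadj).2 trivial).elim
      · exact (((SimpleGraph.compl_adj _ _ _).1 hadj).2 trivial).elim
      · exact class_C hmax hN i

end Step

/-! ### the colouring of `K_36` -/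

/-- adjacency of the red graph -/
def rows : List ℕ := [34359741470, 34359741469, 34359741467, 34359741463, 34359741455, 335548352, 17448308640, 17448308576, 60129545952, 55834578400, 1023, 1023, 68316880896, 68316876800, 68316868608, 68316852224, 68619206656, 51506380800, 34326380544, 34352398336, 34351874048, 68715282432, 68713185280, 68693786624, 68693786624, 51170443264, 68350246944, 30198984704, 68216094944, 64827158528, 64827158528, 64827158528, 4294963712, 4294963456, 4261278656, 4158911263]

/-- the red graph -/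
def G36 : SimpleGraph (Fin 36) where
  Adj i j := ((rows.getD i.1 0).testBit j.1 = true)
  symm := ⟨by decide +kernel⟩
  loopless := ⟨by decide +kernel⟩

instance : DecidableRel G36.Adj := fun i j => by unfold G36; infer_instance

def dL : List ℕ := [7, 7, 7, 7, 7, 8, 8, 8, 9, 9, 10, 10, 11, 11, 11, 11, 12, 12, 12, 13, 13, 14, 14, 15, 15, 16, 17, 18, 19, 20, 20, 20, 21, 21, 22, 23]
def sRL : List ℕ := [5, 5, 5, 5, 5, 3, 3, 3, 2, 2, 1, 1, 4, 4, 4, 4, 3, 3, 3, 2, 2, 2, 2, 1, 1, 1, 1, 1, 1, 1, 1, 1, 1, 1, 1, 1]
def LRL : List ℕ := [5, 5, 5, 5, 5, 3, 3, 3, 5, 5, 6, 6, 4, 4, 4, 4, 3, 3, 3, 2, 2, 2, 2, 3, 3, 4, 4, 5, 4, 5, 5, 5, 6, 6, 6, 6]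
def sBL : List ℕ := [1, 1, 1, 1, 1, 1, 1, 1, 1, 1, 2, 2, 1, 1, 1, 1, 1, 1, 1, 1, 1, 1, 1, 2, 2, 1, 1, 1, 1, 3, 3, 3, 2, 2, 1, 1]
def LBL : List ℕ := [1, 1, 1, 1, 1, 2, 2, 2, 2, 2, 2, 2, 3, 3, 3, 3, 4, 4, 4, 5, 5, 6, 6, 6, 6, 4, 5, 3, 6, 6, 6, 6, 4, 4, 5, 6]

def d36 (v : Fin 36) : ℕ := dL.getD v.1 0

lemma class36 (v : Fin 36) : {u | d36 u = d36 v}.ncard =
    (Finset.univ.filter (fun u => d36 u = d36 v)).card := by
  rw [← Set.ncard_coe_finset]
  congr 1
  ext u
  simp

theorem base : Cert (Fin 36) G36 d36 6 where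
  card := by simp
  hd := by
    intro v
    rw [deg_eq_sum]
    have : ∀ v : Fin 36, (∑ u, if G36.Adj v u then 1 else 0) = d36 v := by decide +kernel
    rw [← this v]
    apply Finset.sum_congr rfl
    intro u _
    congr
  dmin := by decide +kernel
  dmax := by
    rw [Fintype.card_fin]
    decide +kernel
  red := by
    refine ⟨fun v => sRL.getD v.1 0, fun v => LRL.getD v.1 0, by decide +kernel, by decide +kernel,
      by decide +kernel, by decide +kernel, by decide +kernel, ?_⟩
    intro w v
    rw [class36]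
    revert w v
    decide +kernel
  blue := by
    refine ⟨fun v => sBL.getD v.1 0, fun v => LBL.getD v.1 0, by decide +kernel, by decide +kernel,
      by decide +kernel, by decide +kernel, by decide +kernel, ?_⟩
    intro w v
    rw [class36]
    revert w v
    decide +kernel
theorem exists_cert (M : ℕ) (hM : 6 ≤ M) : ∃ (V : Type) (_ : Fintype V) (G : SimpleGraph V)
    (d : V → ℕ), Cert V G d M := by
  induction M, hM using Nat.le_induction with
  | base => exact ⟨Fin 36, inferInstance, G36, d36, base⟩
  | succ M hM ih =>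
    obtain ⟨V, _, G, d, h⟩ := ih
    exact ⟨_, _, _, _, step (by omega) h⟩

/-! ### colourings -/

lemma deg_add {n : ℕ} (c : Sym2 (Fin n) → Fin 2) (x : Fin n) :
    deg (colourGraph c 0) x + deg (colourGraph c 1) x + 1 = n := by
  classical
  have h1 : (∑ u : Fin n, if x = u then 1 else 0) = 1 := by simp
  have h0 : deg (colourGraph c 0) x + deg (colourGraph c 1) x +
      (∑ u : Fin n, if x = u then 1 else 0) = n := ?_
  · rw [h1] at h0
    exact h0
  rw [deg_eq_sum, deg_eq_sum]
  rw [← Finset.sum_add_distrib, ← Finset.sum_add_distrib]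
  have h2 : ∀ u : Fin n, ((if (colourGraph c 0).Adj x u then 1 else 0) +
      (if (colourGraph c 1).Adj x u then 1 else 0)) + (if x = u then 1 else 0) = 1 := by
    intro u
    by_cases hu : x = u
    · subst hu
      rw [if_neg (fun h => h.1 rfl), if_neg (fun h => h.1 rfl), if_pos rfl]
    · have h3 : c s(x, u) = 0 ∨ c s(x, u) = 1 := by
        generalize c s(x, u) = z
        revert z; decide
      rcases h3 with h3 | h3
      · rw [if_pos (show (colourGraph c 0).Adj x u from ⟨hu, h3⟩),
          if_neg (fun h : (colourGraph c 1).Adj x u => by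
            have := h.2
            rw [h3] at this
            exact absurd this (by decide)), if_neg hu]
      · rw [if_pos (show (colourGraph c 1).Adj x u from ⟨hu, h3⟩),
          if_neg (fun h : (colourGraph c 0).Adj x u => by
            have := h.2
            rw [h3] at this
            exact absurd this (by decide)), if_neg hu]
  rw [Finset.sum_congr rfl (fun u _ => h2 u)]
  simp

open Classical in
/-- the colouring of `K_n` given by a graph -/
noncomputable def colouring {V : Type} {n : ℕ} (G : SimpleGraph V) (e : V ≃ Fin n) :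
    Sym2 (Fin n) → Fin 2 :=
  Sym2.lift ⟨fun x y => if G.Adj (e.symm x) (e.symm y) then 0 else 1, by
    intro x y
    simp only [G.adj_comm]⟩

lemma colouring_adj0 {V : Type} {n : ℕ} (G : SimpleGraph V) (e : V ≃ Fin n) (x y : Fin n) :
    (colourGraph (colouring G e) 0).Adj x y ↔ G.Adj (e.symm x) (e.symm y) := by
  simp only [colourGraph, colouring, Sym2.lift_mk]
  constructor
  · rintro ⟨h1, h2⟩
    by_contra h
    rw [if_neg h] at h2
    exact absurd h2 (by decide)
  · intro h
    exact ⟨fun hxy => h.ne (by rw [hxy]), if_pos h⟩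

lemma colouring_adj1 {V : Type} {n : ℕ} (G : SimpleGraph V) (e : V ≃ Fin n) (x y : Fin n) :
    (colourGraph (colouring G e) 1).Adj x y ↔ Gᶜ.Adj (e.symm x) (e.symm y) := by
  simp only [colourGraph, colouring, Sym2.lift_mk, SimpleGraph.compl_adj]
  constructor
  · rintro ⟨h1, h2⟩
    refine ⟨fun h => h1 (e.symm.injective h), fun h => ?_⟩
    rw [if_pos h] at h2
    exact absurd h2 (by decide)
  · rintro ⟨h1, h2⟩
    exact ⟨fun hxy => h1 (by rw [hxy]), if_neg h2⟩

lemma colouring_deg0 {V : Type} [Fintype V] {n : ℕ} (G : SimpleGraph V) (e : V ≃ Fin n)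
    (x : Fin n) : deg (colourGraph (colouring G e) 0) x = deg G (e.symm x) := by
  classical
  rw [deg_eq_sum, deg_eq_sum, ← Equiv.sum_comp e.symm]
  apply Finset.sum_congr rfl
  intro u _
  by_cases h : G.Adj (e.symm x) (e.symm u)
  · rw [if_pos h, if_pos ((colouring_adj0 G e x u).2 h)]
  · rw [if_neg h, if_neg (fun h' => h ((colouring_adj0 G e x u).1 h'))]

lemma no_mono {V : Type} [Fintype V] {G : SimpleGraph V} {d : V → ℕ} {M n : ℕ}
    (h : Cert V G d M) (e : V ≃ Fin n) (j : Fin 2) :
    ¬ HasDegreeMonotonePath (colourGraph (colouring G e) j) (M + 1) := by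
  rintro ⟨p, hp, hpath⟩
  have hd0 : ∀ x, deg (colourGraph (colouring G e) 0) x = d (e.symm x) := fun x => by
    rw [colouring_deg0, h.hd]
  have hj2 : ∀ j : Fin 2, j = 0 ∨ j = 1 := by decide
  rcases hj2 j with rfl | rfl
  · obtain ⟨s, L, hc⟩ := h.red
    refine hc.no_path (fun i => e.symm (p i)) (e.symm.injective.comp hp) ?_
    intro i j hij
    obtain ⟨h1, h2⟩ := hpath i j hij
    rw [hd0, hd0] at h2
    exact ⟨(colouring_adj0 G e _ _).1 h1, h2⟩
  · obtain ⟨s, L, hc⟩ := h.blue
    refine hc.no_path (fun i => e.symm (p (Fin.rev i)))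
      (e.symm.injective.comp (hp.comp Fin.rev_injective)) ?_
    intro i j hij
    have hij' : (Fin.rev j).1 + 1 = (Fin.rev i).1 := by
      rw [Fin.val_rev, Fin.val_rev]
      have := j.2
      omega
    obtain ⟨h1, h2⟩ := hpath _ _ hij'
    refine ⟨((colouring_adj1 G e _ _).1 h1).symm, ?_⟩
    have a1 := deg_add (colouring G e) (p (Fin.rev i))
    have a2 := deg_add (colouring G e) (p (Fin.rev j))
    rw [hd0] at a1 a2
    omega

/-! ### the upper bound -/

lemma chains {α : Type} [LinearOrder α] (R : α → α → Prop) (q : ℕ) : ∀ (p : ℕ) (S : Finset α),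
    p * q < S.card →
    (∃ f : Fin (p + 1) → α, (∀ i, f i ∈ S) ∧
      ∀ i : Fin p, f i.castSucc < f i.succ ∧ R (f i.castSucc) (f i.succ)) ∨
    (∃ f : Fin (q + 1) → α, (∀ i, f i ∈ S) ∧
      ∀ i : Fin q, f i.castSucc < f i.succ ∧ ¬ R (f i.castSucc) (f i.succ)) := by
  classical
  intro p
  induction p with
  | zero =>
    intro S hS
    rw [Nat.zero_mul, Finset.card_pos] at hS
    obtain ⟨x, hx⟩ := hS
    exact Or.inl ⟨fun _ => x, fun _ => hx, fun i => i.elim0⟩
  | succ p ih =>
    intro S hS
    set S0 := S.filter (fun v => ∀ w ∈ S, w < v → ¬ R w v) with hS0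
    by_cases hc : q + 1 ≤ S0.card
    · right
      let g := S0.orderEmbOfFin rfl
      refine ⟨fun i => g (Fin.castLE hc i), fun i => ?_, fun i => ?_⟩
      · exact (Finset.mem_filter.1 (S0.orderEmbOfFin_mem rfl _)).1
      · have hlt : g (Fin.castLE hc i.castSucc) < g (Fin.castLE hc i.succ) := by
          apply g.strictMono
          rw [Fin.lt_def]
          simp
        refine ⟨hlt, ?_⟩
        exact (Finset.mem_filter.1 (S0.orderEmbOfFin_mem rfl _)).2 _
          (Finset.mem_filter.1 (S0.orderEmbOfFin_mem rfl _)).1 hlt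
    · have hcard : p * q < (S \ S0).card := by
        have h1 := Finset.le_card_sdiff S0 S
        have : (p + 1) * q = p * q + q := by ring
        omega
      rcases ih (S \ S0) hcard with ⟨f, hf1, hf2⟩ | ⟨f, hf1, hf2⟩
      · left
        have h0 := hf1 0
        rw [Finset.mem_sdiff] at h0
        have h1 : ¬ ∀ w ∈ S, w < f 0 → ¬ R w (f 0) := fun h =>
          h0.2 (Finset.mem_filter.2 ⟨h0.1, h⟩)
        push Not at h1
        obtain ⟨w, hw, hwf, hR⟩ := h1
        refine ⟨Fin.cons w f, ?_, ?_⟩
        · intro i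
          refine Fin.cases ?_ ?_ i
          · exact hw
          · intro i
            exact (Finset.mem_sdiff.1 (hf1 i)).1
        · intro i
          refine Fin.cases ?_ ?_ i
          · simpa using ⟨hwf, hR⟩
          · intro i
            have := hf2 i
            simp only [Fin.cons_succ]
            rw [← Fin.succ_castSucc, Fin.cons_succ]
            exact this
      · exact Or.inr ⟨f, fun i => (Finset.mem_sdiff.1 (hf1 i)).1, hf2⟩

theorem good_upper (k : ℕ) : k ^ 2 + 1 ∈ Good (k + 1) := by
  intro n hn c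
  let σ := Tuple.sort (fun v : Fin n => deg (colourGraph c 0) v)
  have hσ : Monotone ((fun v : Fin n => deg (colourGraph c 0) v) ∘ σ) :=
    Tuple.monotone_sort _
  rcases chains (fun i j : Fin n => c s(σ i, σ j) = 0) k k Finset.univ
    (by rw [Finset.card_univ, Fintype.card_fin]; nlinarith) with ⟨f, -, hf⟩ | ⟨f, -, hf⟩
  · have hmono : StrictMono f := Fin.strictMono_iff_lt_succ.2 (fun i => (hf i).1)
    refine ⟨0, fun i => σ (f i), σ.injective.comp hmono.injective, ?_⟩
    intro i j hij
    have hi : i.1 < k := by have := j.2; omega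
    have e1 : i = (⟨i.1, hi⟩ : Fin k).castSucc := rfl
    have e2 : j = (⟨i.1, hi⟩ : Fin k).succ := Fin.ext hij.symm
    obtain ⟨h1, h2⟩ := hf ⟨i.1, hi⟩
    rw [← e1, ← e2] at h1 h2
    exact ⟨⟨fun h => h1.ne (σ.injective h), h2⟩, hσ h1.le⟩
  · have hmono : StrictMono f := Fin.strictMono_iff_lt_succ.2 (fun i => (hf i).1)
    refine ⟨1, fun i => σ (f (Fin.rev i)),
      σ.injective.comp (hmono.injective.comp Fin.rev_injective), ?_⟩
    intro i j hij
    have hij' : (Fin.rev j).1 + 1 = (Fin.rev i).1 := by
      rw [Fin.val_rev, Fin.val_rev]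
      have := j.2
      omega
    have hi : (Fin.rev j).1 < k := by have := (Fin.rev i).2; omega
    have e1 : Fin.rev j = (⟨(Fin.rev j).1, hi⟩ : Fin k).castSucc := rfl
    have e2 : Fin.rev i = (⟨(Fin.rev j).1, hi⟩ : Fin k).succ := Fin.ext hij'.symm
    obtain ⟨h1, h2⟩ := hf ⟨(Fin.rev j).1, hi⟩
    rw [← e1, ← e2] at h1 h2
    have h3 : c s(σ (f (Fin.rev j)), σ (f (Fin.rev i))) = 1 := by
      revert h2
      generalize c s(σ (f (Fin.rev j)), σ (f (Fin.rev i))) = z
      revert z; decide
    refine ⟨⟨fun h => h1.ne (σ.injective h).symm, by rw [Sym2.eq_swap]; exact h3⟩, ?_⟩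
    have a1 := deg_add c (σ (f (Fin.rev i)))
    have a2 := deg_add c (σ (f (Fin.rev j)))
    have a3 : deg (colourGraph c 0) (σ (f (Fin.rev j))) ≤ deg (colourGraph c 0) (σ (f (Fin.rev i))) :=
      hσ h1.le
    show deg (colourGraph c 1) (σ (f (Fin.rev i))) ≤ deg (colourGraph c 1) (σ (f (Fin.rev j)))
    omega

theorem lower (k : ℕ) (hk : 6 ≤ k) {N : ℕ} (hN : N ∈ Good (k + 1)) : k ^ 2 + 1 ≤ N := by
  obtain ⟨V, _, G, d, h⟩ := exists_cert k hk
  by_contra hlt
  push Not at hlt
  have hcard := h.card
  obtain ⟨j, hj⟩ := hN (Fintype.card V) (by omega) (colouring G (Fintype.equivFin V))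
  exact no_mono h _ j hj

/-- **Main result.** For all `m ≥ 7`, `M_2(m) = (m - 1) ^ 2 + 1`; in particular it is not true that
for every `C` one has `M_2(m) ≤ (m - 1) ^ 2 - C` for all large `m`. -/
theorem result :
    (∀ m : ℕ, 7 ≤ m → M2 m = (m - 1) ^ 2 + 1) ∧
    ¬ (∀ C : ℕ, ∃ m₀ : ℕ, ∀ m : ℕ, m₀ ≤ m → M2 m + C ≤ (m - 1) ^ 2) := by
  have key : ∀ m : ℕ, 7 ≤ m → M2 m = (m - 1) ^ 2 + 1 := by
    intro m hm
    obtain ⟨k, rfl⟩ : ∃ k, m = k + 1 := ⟨m - 1, by omega⟩
    rw [Nat.add_sub_cancel]
    have hgood := good_upper k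
    exact le_antisymm (Nat.sInf_le hgood) (lower k (by omega) (Nat.sInf_mem ⟨_, hgood⟩))
  refine ⟨key, fun h => ?_⟩
  obtain ⟨m₀, hm₀⟩ := h 0
  have h1 := hm₀ (max m₀ 7) (le_max_left _ _)
  have h2 := key (max m₀ 7) (le_max_right _ _)
  omega

end Pool.Agent.Results.MP_a6acde_co.Exact
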